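import Pool.Agent.Results.MP_8f9d9d_nt.CharPMany

namespace Pool.Agent.Variants.MP_8f9d9d_nt.CharPTwo

open scoped PowerSeries LaurentSeries Polynomial UpperHalfPlane

/-- The two-point statement of the former hand-in `CharP`, derived from `CharPMany`. -/
theorem result (p : ℕ) [Fact p.Prime] (k : Type) [Field k] [IsAlgClosed k] [Algebra (ZMod p) k]
    [Algebra.IsAlgebraic (ZMod p) k] (E4 E6 Δ : ℤ⟦X⟧)
    (h4 : E4 = 1 + 240 * PowerSeries.mk fun n => ((ArithmeticFunction.sigma 3 n : ℕ) : ℤ))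
    (h6 : E6 = 1 - 504 * PowerSeries.mk fun n => ((ArithmeticFunction.sigma 5 n : ℕ) : ℤ))
    (hΔ : 1728 * Δ = E4 ^ 3 - E6 ^ 2) (J : k⟦X⟧ → k⸨X⸩)
    (hJ : ∀ q : k⟦X⟧, J q = ((E4.subst q : k⟦X⟧) : k⸨X⸩) ^ 3 / ((Δ.subst q : k⟦X⟧) : k⸨X⸩))
    (j : ℂ → ℂ) (hj : ∀ τ : ℍ, j τ = ModularForm.E₄ τ ^ 3 / ModularForm.discriminant τ)
    (Φ : ℕ → MvPolynomial (Fin 2) ℤ)
    (hΦ : ∀ s : ℕ, 0 < s → ∀ τ : ℂ, 0 < τ.im → ∀ x : ℂ, MvPolynomial.aeval ![x, j τ] (Φ s) =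
      ∏ c ∈ s.divisorsAntidiagonal,
        ∏ b ∈ (Finset.range c.2).filter (fun b => Nat.gcd (Nat.gcd c.1 b) c.2 = 1),
          (x - j ((c.1 * τ + b) / c.2)))
    (q1 q2 : k⟦X⟧) (h1 : q1 ≠ 0) (c1 : PowerSeries.constantCoeff q1 = 0) (h2 : q2 ≠ 0)
    (c2 : PowerSeries.constantCoeff q2 = 0) (a1 : IsAlgebraic k[X] q1) (a2 : IsAlgebraic k[X] q2)
    (P : MvPolynomial (Fin 2) k[X]) (hP : Irreducible P)
    (h : MvPolynomial.aeval ![J q1, J q2] P = 0) :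
    (∃ s : ℕ, 0 < s ∧ P ∣ MvPolynomial.map (Int.castRingHom k[X]) (Φ s)) ∧
    ∃ m n : ℤ, (m ≠ 0 ∨ n ≠ 0) ∧ (q1 : k⸨X⸩) ^ m * (q2 : k⸨X⸩) ^ n = 1 := by
  have : CharP k p := charP_of_injective_algebraMap (algebraMap (ZMod p) k).injective p
  obtain ⟨i, i', hi, ⟨s, hs, -, hd⟩, hm⟩ := Results.MP_8f9d9d_nt.CharPMany.result p k E4 E6 Δ h4 h6
    hΔ
    J hJ j hj Φ hΦ 2 ![q1, q2] (Fin.forall_fin_two.2 ⟨h1, h2⟩) (Fin.forall_fin_two.2 ⟨c1, c2⟩)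
    (Fin.forall_fin_two.2 ⟨a1, a2⟩) fun H => hP.ne_zero (algebraicIndependent_iff.1 H P (by
      have e : (fun i => J (![q1, q2] i)) = ![J q1, J q2] := by
        funext x
        fin_cases x <;> rfl
      rw [e, h]))
  obtain rfl : i = 0 := by omega
  obtain rfl : i' = 1 := by omega
  exact ⟨⟨s, hs, hd P hP h⟩, hm⟩

end Pool.Agent.Variants.MP_8f9d9d_nt.CharPTwo
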